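import Pool.Agent.Helper50.BP.St

/-!
# Project BP (MP_b3ce06_al): module ZA

Prime divisors of the value of a cyclotomic polynomial.
-/

set_option autoImplicit false

namespace Pool.Agent.Helper99.BP

open Pool.Agent.Helper50.BP

/-- the primitive root -/
private lemma prim {p r m j : ℕ} [Fact r.Prime] (hm : ¬ r ∣ m)
    (h : (r : ℤ) ∣ (Polynomial.cyclotomic (r ^ j * m) ℤ).eval (p : ℤ)) :
    IsPrimitiveRoot (p : ZMod r) m := by
  have hne : NeZero ((m : ℕ) : ZMod r) := by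
    refine ⟨fun h0 => hm ?_⟩
    exact (ZMod.natCast_eq_zero_iff m r).mp h0
  rw [← Polynomial.isRoot_cyclotomic_prime_pow_mul_iff_of_charP (p := r) (k := j)]
  rw [Polynomial.IsRoot.def]
  have h1 : (((Polynomial.cyclotomic (r ^ j * m) ℤ).eval (p : ℤ) : ℤ) : ZMod r) = 0 :=
    (ZMod.intCast_zmod_eq_zero_iff_dvd _ r).mpr h
  have h2 : Polynomial.cyclotomic (r ^ j * m) (ZMod r) =
      (Polynomial.cyclotomic (r ^ j * m) ℤ).map (Int.castRingHom (ZMod r)) :=
    (Polynomial.map_cyclotomic_int _ _).symm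
  have h3 := Polynomial.eval_intCast_map (Int.castRingHom (ZMod r))
    (Polynomial.cyclotomic (r ^ j * m) ℤ) (p : ℤ)
  rw [h2]
  have h4 : (((p : ℤ) : ZMod r)) = (p : ZMod r) := by push_cast; rfl
  rw [h4] at h3
  rw [h3]
  exact h1

private lemma pow_one_of_dvd {p r d : ℕ} (hp : 1 ≤ p) (h : r ∣ p ^ d - 1) :
    (p : ZMod r) ^ d = 1 := by
  have h1 : ((p ^ d - 1 : ℕ) : ZMod r) = 0 := (ZMod.natCast_eq_zero_iff _ _).mpr h
  rw [Nat.cast_sub (Nat.one_le_pow _ _ hp), Nat.cast_pow, Nat.cast_one, sub_eq_zero] at h1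
  exact h1

/-- the odd case -/
private lemma odd_case {p n r N : ℕ} (hr : r.Prime) (hodd : Odd r) (hp : 3 ≤ p) (hN : 1 ≤ N)
    (hn : n = r * N) (hy : (r : ℤ) ∣ (p : ℤ) ^ N - 1) :
    ¬ (r : ℤ) ^ 2 ∣ (Polynomial.cyclotomic n ℤ).eval (p : ℤ) := by
  intro h2
  have : Fact r.Prime := ⟨hr⟩
  set y : ℤ := (p : ℤ) ^ N with hyd
  have hy1 : 1 < y := by
    have h1 : (1 : ℤ) < (p : ℤ) := by exact_mod_cast (by omega : 1 < p)
    exact one_lt_pow₀ h1 (by omega)
  have hmem : N ∈ n.properDivisors := by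
    rw [Nat.mem_properDivisors]
    refine ⟨⟨r, by rw [hn, mul_comm]⟩, ?_⟩
    rw [hn]
    have := hr.two_le
    nlinarith
  have hdvd := Polynomial.X_pow_sub_one_mul_cyclotomic_dvd_X_pow_sub_one_of_dvd ℤ hmem
  have hdvd' : (y - 1) * (Polynomial.cyclotomic n ℤ).eval (p : ℤ) ∣ y ^ r - 1 := by
    obtain ⟨q, hq⟩ := hdvd
    refine ⟨q.eval (p : ℤ), ?_⟩
    have h3 := congrArg (Polynomial.eval (p : ℤ)) hq
    simp only [Polynomial.eval_mul, Polynomial.eval_sub, Polynomial.eval_pow, Polynomial.eval_X,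
      Polynomial.eval_one] at h3
    rw [hn, mul_comm r N, pow_mul] at h3
    rw [hn, mul_comm r N]
    exact h3
  have hnot : ¬ (r : ℤ) ∣ y := by
    intro h3
    have h4 : (r : ℤ) ∣ 1 := by
      have := dvd_sub h3 hy
      simpa using this
    have h5 : r ∣ 1 := by exact_mod_cast h4
    exact hr.one_lt.ne' (Nat.dvd_one.mp h5)
  have hlte := Int.emultiplicity_pow_sub_pow (p := r) hr hodd (x := y) (y := 1) hy hnot r
  rw [one_pow] at hlte
  have hrr : emultiplicity r r = 1 := by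
    have hfin : FiniteMultiplicity r r := Nat.finiteMultiplicity_iff.mpr ⟨hr.one_lt.ne', hr.pos⟩
    rw [hfin.emultiplicity_self]
  rw [hrr] at hlte
  have hfin : FiniteMultiplicity (r : ℤ) (y - 1) := by
    rw [Int.finiteMultiplicity_iff]
    refine ⟨?_, by omega⟩
    rw [Int.natAbs_natCast]
    exact hr.one_lt.ne'
  obtain ⟨k, hk⟩ : ∃ k : ℕ, emultiplicity (r : ℤ) (y - 1) = k :=
    ⟨_, hfin.emultiplicity_eq_multiplicity⟩
  have h6 : (r : ℤ) ^ k ∣ y - 1 := pow_dvd_of_le_emultiplicity (by rw [hk])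
  have h7 : (r : ℤ) ^ (k + 2) ∣ y ^ r - 1 := by
    rw [pow_add]
    exact (mul_dvd_mul h6 h2).trans hdvd'
  have h8 : ((k + 2 : ℕ) : ℕ∞) ≤ emultiplicity (r : ℤ) (y ^ r - 1) :=
    le_emultiplicity_of_pow_dvd h7
  rw [hlte, hk] at h8
  have h9 : k + 2 ≤ k + 1 := by exact_mod_cast h8
  omega

/-- the case of the prime two -/
private lemma two_case {p j : ℕ} (hp : Odd p) :
    ¬ ((2 : ℕ) : ℤ) ^ 2 ∣ (Polynomial.cyclotomic (2 ^ (j + 2)) ℤ).eval (p : ℤ) := by
  have h1 : (Polynomial.cyclotomic (2 ^ (j + 2)) ℤ).eval (p : ℤ) =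
      ((p : ℤ) ^ (2 ^ j)) ^ 2 + 1 := by
    rw [show j + 2 = (j + 1) + 1 from rfl,
      Polynomial.cyclotomic_prime_pow_eq_geom_sum Nat.prime_two]
    simp only [Finset.sum_range_succ, Finset.sum_range_zero, Polynomial.eval_add,
      Polynomial.eval_pow, Polynomial.eval_X, Polynomial.eval_zero]
    ring
  rw [h1]
  have h2 : Odd ((p : ℤ) ^ (2 ^ j)) := Odd.pow (by exact_mod_cast hp)
  obtain ⟨a, ha⟩ := h2
  rw [ha]
  rintro ⟨b, hb⟩
  push_cast at hb
  have : 4 * (a * a + a - b) = -2 := by linarith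
  omega

/-- MODULE ZA. -/
theorem hZA : StZA := by
  intro p n r hp hp3 hn hr hΦ
  have : Fact r.Prime := ⟨hr⟩
  obtain ⟨j, m, hm, hnjm⟩ := Nat.exists_eq_pow_mul_and_not_dvd (n := n) (by omega) r hr.one_lt.ne'
  rw [hnjm] at hΦ
  have hprim := prim hm hΦ
  have hm0 : 0 < m := by
    rcases Nat.eq_zero_or_pos m with h | h
    · subst h
      simp at hm
    · exact h
  have hpne : (p : ZMod r) ≠ 0 := hprim.ne_zero hm0.ne'
  have hmr : m ∣ r - 1 := hprim.dvd_of_pow_eq_one _ (ZMod.pow_card_sub_one_eq_one hpne)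
  have hmle : m ≤ r - 1 := Nat.le_of_dvd (by have := hr.two_le; omega) hmr
  rcases Nat.eq_zero_or_pos j with hj | hj
  · left
    have hnm : n = m := by rw [hnjm, hj, pow_zero, one_mul]
    rw [hnm]
    exact ⟨hmr, fun d hd h => hprim.dvd_of_pow_eq_one _ (pow_one_of_dvd (by omega) h)⟩
  · right
    refine ⟨?_, ?_, ?_⟩
    · rw [hnjm]
      exact (dvd_pow_self r hj.ne').mul_right m
    · intro r' hr' h
      rw [hnjm] at h
      rcases (hr'.dvd_mul).mp h with h1 | h1
      · have := (Nat.prime_dvd_prime_iff_eq hr' hr).mp (hr'.dvd_of_dvd_pow h1)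
        omega
      · have := Nat.le_of_dvd hm0 h1
        omega
    · rcases hr.eq_two_or_odd' with h2 | hodd
      · subst h2
        have hm1 : m = 1 := by omega
        subst hm1
        rw [mul_one] at hnjm
        have hj2 : 2 ≤ j := by
          by_contra h
          have : j = 1 := by omega
          subst this
          omega
        obtain ⟨i, rfl⟩ := Nat.exists_eq_add_of_le' hj2
        rw [hnjm]
        apply two_case
        rcases hp.eq_two_or_odd' with h | h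
        · omega
        · exact h
      · obtain ⟨i, rfl⟩ : ∃ i, j = i + 1 := ⟨j - 1, by omega⟩
        refine odd_case (N := r ^ i * m) hr hodd hp3 (Nat.mul_pos (pow_pos hr.pos _) hm0) ?_ ?_
        · rw [hnjm, pow_succ]
          ring
        · have h1 : (p : ZMod r) ^ (r ^ i * m) = 1 :=
            (hprim.pow_eq_one_iff_dvd _).mpr (Dvd.intro_left _ rfl)
          rw [← ZMod.intCast_zmod_eq_zero_iff_dvd]
          push_cast
          rw [h1, sub_self]

end Pool.Agent.Helper99.BP
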